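import Pool.Agent.Q7.GK.Stm
import Pool.Agent.Q79.LS.BRG

/-! # Project GK of helper7: job GBRG, from the conditions for `D` to the conditions for `D0` -/

set_option autoImplicit false

namespace Pool.Agent.Q18.GK

open NumberField IsDedekindDomain
open Pool.Agent.Q283.LQ (Sm)
open Pool.Agent.Q7.LK
open Pool.Agent.Q7.LS (Ao)
open Pool.Agent.Q7.GK
open Pool.Agent.Q79.LS (lpw_pow quo)

theorem gbrg (hBAS : S_BAS) (hAUC : S_AUC) : S_GBRG := by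
  intro p _ hp Lg hLg F _ _ ζ hζ y hy G hG D0 hD0 k z q D hF
  have hsm : ∀ v : HeightOneSpectrum (𝓞 F), Dp p v → Sm y v := fun v hv => ⟨p, Fact.out, hy, hv⟩
  have hquo : ∀ v : HeightOneSpectrum (𝓞 F), Sm y v → Lpw p v (D0 / D) ∧ (Lpw p v D ↔ Lpw p v D0) ∧ vl p v D = vl p v D0 :=
    fun v hv => quo hBAS p v hF.ne hD0 (hF.loc v hv)
  have hmul : D * (D0 / D) = D0 := mul_div_cancel₀ D0 hF.ne
  rintro N ⟨a, ha, hne⟩
  refine ⟨a, fun i => ⟨?_, (ha i).2⟩, hne⟩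
  obtain ⟨h1, h2⟩ := ha i
  have ha0 : a i ≠ 0 := by
    intro h0
    refine h2 0 ⟨0, ?_⟩
    rw [h0, zero_mul, zero_pow (Fact.out : p.Prime).ne_zero]
  have hAo : ∀ v : HeightOneSpectrum (𝓞 F), ¬ Sm y v → Ao p v D (a i) := fun v hv =>
    (h1 v).out (fun h => hv (hsm v h))
  refine ⟨ha0, fun v hv h => (hAo v hv).2.1 h, fun v hv h => (hAo v hv).2.2 h, fun v hv => ?_⟩
  obtain ⟨q1, q2, q3⟩ := hquo v hv
  refine ⟨ha0, fun hv1 hv2 => (h1 v).inG hv1 (q2.2 hv2), fun hv1 hv2 => ?_, fun hv1 => ?_⟩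
  · have h3 := (hAUC p hp F v D hF.ne).2.1 (D0 / D) (a i) q1 ((h1 v).inp hv1 fun h => hv2 ⟨h.1, q2.1 h.2⟩)
    rwa [hmul] at h3
  · obtain ⟨_, h4, h5⟩ := (h1 v).out hv1
    refine ⟨ha0, fun h => h4 (q3.trans h), fun h => ?_⟩
    obtain ⟨j, hj⟩ := h5 fun h6 => h (q3.symm.trans h6)
    refine ⟨j, ?_⟩
    have h7 := (hBAS p F v).2.1 _ _ hj (lpw_pow hBAS p v q1 j)
    rwa [mul_assoc, ← mul_pow, hmul] at h7

end Pool.Agent.Q18.GK
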